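import Mathlib
import Pool.Agent.H19.Palin

set_option autoImplicit false

namespace Pool.Agent.Results.MP_738270_al.SomeGenSet

theorem result (G : Type*) [Group G] [Group.FG G] :
    ∃ X : Finset G, Subgroup.closure (X : Set G) = ⊤ ∧
      ∃ N : ℕ, ∀ g : G, ∃ ws : List (List (X × Bool)), ws.length ≤ N ∧
        (∀ w ∈ ws, FreeGroup.IsReduced w ∧ w.reverse = w) ∧
        (ws.map fun w =>
          (w.map fun x => if x.2 then (x.1 : G) else (x.1 : G)⁻¹).prod).prod = g := by
  obtain ⟨S, hS⟩ := (Group.fg_def.mp ‹Group.FG G›)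
  obtain ⟨X, hX, N, hN⟩ := Pool.Agent.H19.Palin.exists_finite_width G S hS
  refine ⟨X, ?_, N, hN⟩
  rw [eq_top_iff, ← hS]
  exact Subgroup.closure_mono hX

end Pool.Agent.Results.MP_738270_al.SomeGenSet
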